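import Pool.Agent.Y142.ZS.Stm
import Pool.Agent.Y155.ZI.Tens
import Pool.Agent.TH125.Nod.Fft2

/-!
# Project Y142-ZS: tensor invariants of an open subgroup, symplectic case
-/

set_option autoImplicit false

open Matrix Polynomial Filter Topology
open Pool.Agent.Y142.ZO Pool.Agent.Y142.ZI Pool.Agent.Y142.ZS

namespace Pool.Agent.Y100.ZS

open Module Finset
open Pool.Agent.Y155.ZI (Tσ Tσ_apply formK formK_apply formK_single eq_formK bil_toBilin cont_form
  tan_pow)

section alg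

variable {K : Type} [Field K] {r k : ℕ}

/-- the partner of a slot -/
def mate {m : ℕ} (e : Fin m × Fin 2 ≃ Fin k) (j : Fin k) : Fin k :=
  e ((e.symm j).1, (e.symm j).2 + 1)

theorem fin2_ne (i : Fin 2) : i + 1 ≠ i := by
  fin_cases i <;> decide

theorem fin2_add (i : Fin 2) : i + 1 + 1 = i := by
  fin_cases i <;> decide

theorem mate_mate {m : ℕ} (e : Fin m × Fin 2 ≃ Fin k) (j : Fin k) : mate e (mate e j) = j := by
  unfold mate
  rw [Equiv.symm_apply_apply, fin2_add]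
  exact e.apply_symm_apply j

theorem mate_ne {m : ℕ} (e : Fin m × Fin 2 ≃ Fin k) (j : Fin k) : mate e j ≠ j := by
  unfold mate
  intro h
  have h1 := congrArg (fun x => (e.symm x).2) h
  simp only [Equiv.symm_apply_apply] at h1
  exact fin2_ne _ h1

theorem mate_e0 {m : ℕ} (e : Fin m × Fin 2 ≃ Fin k) (l : Fin m) : mate e (e (l, 0)) = e (l, 1) := by
  unfold mate
  rw [Equiv.symm_apply_apply]
  rfl

theorem mate_e1 {m : ℕ} (e : Fin m × Fin 2 ≃ Fin k) (l : Fin m) : mate e (e (l, 1)) = e (l, 0) := by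
  unfold mate
  rw [Equiv.symm_apply_apply]
  rfl

/-- the products over the pairs and over the smaller slots agree up to sign -/
theorem prod_pairs {V : Type} {m : ℕ} (e : Fin m × Fin 2 ≃ Fin k) (b : V → V → K)
    (hb : ∀ x y, b x y = -b y x) : ∃ s : K, ∀ v : Fin k → V,
      ∏ l, b (v (e (l, 0))) (v (e (l, 1))) =
        s * ∏ j with j < mate e j, b (v j) (v (mate e j)) := by
  classical
  refine ⟨∏ l : Fin m, if e (l, 0) < e (l, 1) then 1 else -1, fun v => ?_⟩
  have h1 : ∏ j with j < mate e j, b (v j) (v (mate e j)) =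
      ∏ l : Fin m, b (v (if e (l, 0) < e (l, 1) then e (l, 0) else e (l, 1)))
        (v (mate e (if e (l, 0) < e (l, 1) then e (l, 0) else e (l, 1)))) := by
    symm
    refine Finset.prod_bij (fun l _ => if e (l, 0) < e (l, 1) then e (l, 0) else e (l, 1))
      ?_ ?_ ?_ ?_
    · intro l _
      rw [mem_filter]
      refine ⟨mem_univ _, ?_⟩
      split_ifs with h
      · rwa [mate_e0]
      · rw [mate_e1]
        refine lt_of_le_of_ne (not_lt.1 h) ?_
        intro h'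
        have := e.injective h'
        simp at this
    · intro l _ l' _ h
      have h2 := congrArg (fun x => (e.symm x).1) h
      have h3 : ∀ l : Fin m, (e.symm (if e (l, 0) < e (l, 1) then e (l, 0) else e (l, 1))).1 = l := by
        intro l
        split_ifs <;> rw [Equiv.symm_apply_apply]
      rwa [h3, h3] at h2
    · intro j hj
      rw [mem_filter] at hj
      refine ⟨(e.symm j).1, mem_univ _, ?_⟩
      obtain ⟨⟨l, i⟩, rfl⟩ := e.surjective j
      rw [Equiv.symm_apply_apply]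
      fin_cases i
      · have := hj.2
        change e (l, 0) < mate e (e (l, 0)) at this
        rw [mate_e0] at this
        simp only [this, if_true]
        rfl
      · have := hj.2
        change e (l, 1) < mate e (e (l, 1)) at this
        rw [mate_e1] at this
        simp only [not_lt.2 this.le, if_false]
        rfl
    · intro l _
      rfl
  rw [h1, ← Finset.prod_mul_distrib]
  refine Finset.prod_congr rfl fun l _ => ?_
  split_ifs with h
  · rw [mate_e0, one_mul]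
  · rw [mate_e1, hb (v (e (l, 1)))]
    ring

/-- the symmetric elementary maps of the symplectic Lie algebra -/
def sw2 (J : Matrix (Fin r) (Fin r) K) (u v : Fin r → K) : Matrix (Fin r) (Fin r) K :=
  vecMulVec v (u ᵥ* J) + vecMulVec u (v ᵥ* J)

theorem sw2_mulVec (J : Matrix (Fin r) (Fin r) K) (u v x : Fin r → K) :
    sw2 J u v *ᵥ x = bil J u x • v + bil J v x • u := by
  unfold sw2 bil
  rw [add_mulVec, vecMulVec_mulVec, vecMulVec_mulVec, ← dotProduct_mulVec, ← dotProduct_mulVec]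
  simp [op_smul_eq_smul]

theorem sw2_sp {J : Matrix (Fin r) (Fin r) K} (hJ : Jᵀ = -J) (u v : Fin r → K) :
    SpLie J (sw2 J u v) := by
  unfold SpLie sw2
  have h : ∀ c : Fin r → K, c ᵥ* J = -(J *ᵥ c) := by
    intro c
    rw [← mulVec_transpose, hJ, neg_mulVec]
  rw [transpose_add, transpose_vecMulVec, transpose_vecMulVec, Matrix.add_mul, Matrix.mul_add,
    Matrix.vecMulVec_mul, Matrix.vecMulVec_mul, Matrix.mul_vecMulVec, Matrix.mul_vecMulVec, h u, h v]
  simp only [neg_vecMulVec, vecMulVec_neg]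
  abel

/-- the first fundamental theorem, from the invariance under the maps `sw2 J u v` -/
theorem fftS [CharZero K] (J : Matrix (Fin r) (Fin r) K) (hJ : Jᵀ = -J)
    (hdet : J.det ≠ 0) (φ : MultilinearMap K (fun _ : Fin k => (Fin r → K)) K)
    (hφ : ∀ (a b : Fin r → K) (v : Fin k → Fin r → K),
      ∑ j, φ (Function.update v j (sw2 J a b *ᵥ v j)) = 0) :
    (fun v => φ v) ∈ Submodule.span K {f : (Fin k → Fin r → K) → K |
      ∃ π : Equiv.Perm (Fin k), (∀ j, π (π j) = j) ∧ (∀ j, π j ≠ j) ∧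
        ∀ v, f v = ∏ j with j < π j, (v j ⬝ᵥ J *ᵥ v (π j))} := by
  classical
  have hanti : ∀ a b, J a b = -J b a := by
    intro a b
    have := congrFun (congrFun hJ b) a
    rwa [transpose_apply, Matrix.neg_apply] at this
  have hbil : ∀ a b : Fin r, bil J (Pi.single a 1) (Pi.single b 1) = J a b := by
    intro a b
    unfold bil
    simp
  have hkey := Pool.Agent.TH125.Nod.fft (K := K) (B := Fin r) (ι := Unit) (M := K)
    (κ := fun _ => ()) (Q := J) (R := J⁻¹) (s := fun _ => -1) (fun _ => Or.inr rfl)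
    (fun a b h => absurd rfl h) (fun a b => by rw [hanti a b]; push_cast; ring)
    (Matrix.mul_nonsing_inv J (isUnit_iff_ne_zero.2 hdet)) k (Fin k) (fun _ => ())
    (fun I => φ (fun j => Pi.single (I j) 1)) (Fintype.card_fin k)
    (fun I hI => absurd (fun _ => rfl) hI) (by
      intro u v _ I
      have h := hφ (Pi.single v 1) (Pi.single u 1) (fun j => Pi.single (I j) 1)
      refine Eq.trans (Finset.sum_congr rfl fun j _ => ?_) h
      rw [sw2_mulVec, MultilinearMap.map_update_add, MultilinearMap.map_update_smul,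
        MultilinearMap.map_update_smul, hbil, hbil]
      have h2 : ∀ x : Fin r, Function.update (fun j => (Pi.single (I j) 1 : Fin r → K)) j
          (Pi.single x 1) = fun i => Pi.single (Function.update I j x i) 1 := by
        intro x
        exact (Function.comp_update (fun y : Fin r => (Pi.single y 1 : Fin r → K)) I j x).symm
      rw [h2, h2]
      simp only [smul_eq_mul]
      push_cast
      ring) (fun i hi => by norm_num at hi)
  -- evaluation on the basis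
  let q := Pi.basisFun K (Fin r)
  let evq : MultilinearMap K (fun _ : Fin k => (Fin r → K)) K →ₗ[K] ((Fin k → Fin r) → K) :=
    { toFun := fun T I => T (fun j => Pi.single (I j) 1)
      map_add' := fun _ _ => rfl
      map_smul' := fun _ _ => rfl }
  have hinj : Function.Injective evq := by
    intro T T' h
    refine Basis.ext_multilinear (fun _ => q) fun I => ?_
    simp only [q, Pi.basisFun_apply]
    exact congrFun h I
  let eve : MultilinearMap K (fun _ : Fin k => (Fin r → K)) K →ₗ[K] ((Fin k → Fin r → K) → K) :=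
    { toFun := fun T v => T v
      map_add' := fun _ _ => rfl
      map_smul' := fun _ _ => rfl }
  let GG : Set (MultilinearMap K (fun _ : Fin k => (Fin r → K)) K) :=
    {T | ∃ (σ : Fin k → Fin k) (h1 : ∀ j, σ (σ j) = j) (h2 : ∀ j, σ j ≠ j),
      T = Tσ (Matrix.toBilin' J) σ h1 h2}
  have h1 : evq φ ∈ (Submodule.span K GG).map evq := by
    have hle : Pool.Agent.TH125.Nod.Gen (M := K) (fun _ : Fin r => ()) J (fun _ : Fin k => ()) ≤
        (Submodule.span K GG).map evq := by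
      unfold Pool.Agent.TH125.Nod.Gen
      rw [Submodule.span_le]
      rintro _ ⟨m, e, w, rfl⟩
      obtain ⟨s, hs⟩ := prod_pairs (K := K) e (fun a b : Fin r => J a b) hanti
      refine ⟨(s * w) • Tσ (Matrix.toBilin' J) (mate e) (mate_mate e) (mate_ne e),
        Submodule.smul_mem _ _ (Submodule.subset_span ⟨_, _, _, rfl⟩), ?_⟩
      funext I
      unfold Pool.Agent.TH125.Nod.gen
      rw [if_pos (fun _ => rfl), hs I]
      show (s * w) • Tσ (Matrix.toBilin' J) (mate e) (mate_mate e) (mate_ne e)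
        (fun j => Pi.single (I j) 1) = _
      rw [Tσ_apply]
      simp only [bil_toBilin, hbil, smul_eq_mul]
      ring
    exact hle hkey
  obtain ⟨T, hT, hT'⟩ := h1
  have h2 : φ ∈ Submodule.span K GG := by
    rw [← hinj hT']
    exact hT
  have h3 : eve φ ∈ (Submodule.span K GG).map eve := Submodule.mem_map_of_mem h2
  rw [Submodule.map_span] at h3
  refine Submodule.span_mono ?_ h3
  rintro _ ⟨_, ⟨σ, hσ1, hσ2, rfl⟩, rfl⟩
  refine ⟨Function.Involutive.toPerm σ hσ1, hσ1, hσ2, fun v => ?_⟩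
  refine (Tσ_apply (Matrix.toBilin' J) σ hσ1 hσ2 _).trans ?_
  refine prod_congr rfl fun j _ => ?_
  exact bil_toBilin J _ _

end alg

section tan

variable {ℓ : ℕ} [Fact ℓ.Prime] {N : ℕ} {G : Type} [Group G]

theorem iso_pow {J g : Matrix (Fin N) (Fin N) ℚ_[ℓ]} (h : gᵀ * J * g = J) (e : ℕ) :
    (g ^ e)ᵀ * J * g ^ e = J := by
  induction e with
  | zero => simp
  | succ e ih =>
    rw [pow_succ, transpose_mul]
    calc gᵀ * (g ^ e)ᵀ * J * (g ^ e * g) = gᵀ * ((g ^ e)ᵀ * J * g ^ e) * g := by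
          simp only [Matrix.mul_assoc]
      _ = J := by rw [ih, h]

/-- Cayley transforms -/
theorem cayley {J X : Matrix (Fin N) (Fin N) ℚ_[ℓ]} (hX : SpLie J X)
    {ρ : G →* Matrix (Fin N) (Fin N) ℚ_[ℓ]} (hO : OpenSp ℓ ρ J) :
    ∃ σ : ℕ → G, (∀ n, (ρ (σ n))ᵀ * J * ρ (σ n) = J) ∧
      Tendsto (fun n : ℕ => ((ℓ : ℚ_[ℓ]) ^ n)⁻¹ • (ρ (σ n) - 1)) atTop (𝓝 X) := by
  classical
  obtain ⟨ε, hε, hO⟩ := hO
  have hℓ0 : (ℓ : ℚ_[ℓ]) ≠ 0 := by
    exact_mod_cast (Fact.out : ℓ.Prime).ne_zero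
  have hpow : Tendsto (fun n : ℕ => (ℓ : ℚ_[ℓ]) ^ n) atTop (𝓝 0) := by
    refine tendsto_pow_atTop_nhds_zero_of_norm_lt_one ?_
    exact Padic.norm_p_lt_one
  obtain ⟨Y, hY⟩ : ∃ Y : Matrix (Fin N) (Fin N) ℚ_[ℓ], Y = (2 : ℚ_[ℓ])⁻¹ • X := ⟨_, rfl⟩
  have hXY : X = (2 : ℚ_[ℓ]) • Y := by rw [hY, smul_smul, mul_inv_cancel₀ two_ne_zero, one_smul]
  have hYs : Yᵀ * J = -(J * Y) := by
    have h1 : Xᵀ * J = -(J * X) := eq_neg_of_add_eq_zero_left hX
    rw [hY, transpose_smul, Matrix.smul_mul, h1, Matrix.mul_smul, smul_neg]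
  obtain ⟨A, hA⟩ : ∃ A : ℕ → Matrix (Fin N) (Fin N) ℚ_[ℓ], ∀ n, A n = (ℓ : ℚ_[ℓ]) ^ n • Y :=
    ⟨_, fun _ => rfl⟩
  have hAs : ∀ n, (A n)ᵀ * J = -(J * A n) := by
    intro n
    rw [hA, transpose_smul, Matrix.smul_mul, hYs, Matrix.mul_smul, smul_neg]
  have hA0 : Tendsto A atTop (𝓝 0) := by
    have h1 := hpow.smul_const Y
    rw [zero_smul] at h1
    exact h1.congr fun n => (hA n).symm
  have hM : Tendsto (fun n => 1 - A n) atTop (𝓝 1) := by
    have h1 := hA0.const_sub (1 : Matrix (Fin N) (Fin N) ℚ_[ℓ])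
    rwa [sub_zero] at h1
  have hdet : Tendsto (fun n => (1 - A n).det) atTop (𝓝 1) := by
    have h1 := ((continuous_id.matrix_det : Continuous fun M : Matrix (Fin N) (Fin N) ℚ_[ℓ] =>
      (id M).det).tendsto 1).comp hM
    simpa [Function.comp_def] using h1
  have hdet0 : ∀ᶠ n in atTop, (1 - A n).det ≠ 0 := hdet.eventually_ne one_ne_zero
  have hinv : Tendsto (fun n => (1 - A n)⁻¹) atTop (𝓝 1) := by
    have h1 := ((continuous_id.matrix_adjugate : Continuous fun M : Matrix (Fin N) (Fin N) ℚ_[ℓ] =>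
      (id M).adjugate).tendsto 1).comp hM
    have h2 := (hdet.inv₀ one_ne_zero).smul h1
    have h3 : ((1 : ℚ_[ℓ])⁻¹) • ((id (1 : Matrix (Fin N) (Fin N) ℚ_[ℓ])).adjugate) = 1 := by simp
    rw [h3] at h2
    refine h2.congr fun n => ?_
    rw [Matrix.inv_def, Ring.inverse_eq_inv']
    rfl
  obtain ⟨g, hg⟩ : ∃ g : ℕ → Matrix (Fin N) (Fin N) ℚ_[ℓ],
      ∀ n, g n = (1 + A n) * (1 - A n)⁻¹ := ⟨_, fun _ => rfl⟩
  have hg1 : Tendsto (fun n => g n - 1) atTop (𝓝 0) := by
    have h1 := ((hA0.const_add (1 : Matrix (Fin N) (Fin N) ℚ_[ℓ])).mul hinv).sub_const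
      (1 : Matrix (Fin N) (Fin N) ℚ_[ℓ])
    rw [add_zero, mul_one, sub_self] at h1
    exact h1.congr fun n => by rw [hg]
  have hgiso : ∀ n, (1 - A n).det ≠ 0 → (g n)ᵀ * J * g n = J := by
    intro n hn
    have hu : IsUnit (1 - A n).det := isUnit_iff_ne_zero.2 hn
    have e1 : (1 + A n)ᵀ * J = J * (1 - A n) := by
      rw [transpose_add, transpose_one, Matrix.add_mul, hAs, Matrix.mul_sub, Matrix.one_mul,
        Matrix.mul_one]
      abel
    have e2 : (1 - A n)ᵀ * J = J * (1 + A n) := by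
      rw [transpose_sub, transpose_one, Matrix.sub_mul, hAs, Matrix.mul_add, Matrix.one_mul,
        Matrix.mul_one]
      abel
    have e3 : (1 - A n) * (1 + A n) = (1 + A n) * (1 - A n) := by noncomm_ring
    have hut : IsUnit ((1 - A n)ᵀ).det := by rwa [det_transpose]
    rw [hg, transpose_mul, transpose_nonsing_inv]
    calc (1 - A n)ᵀ⁻¹ * (1 + A n)ᵀ * J * ((1 + A n) * (1 - A n)⁻¹)
        = (1 - A n)ᵀ⁻¹ * ((1 + A n)ᵀ * J) * (1 + A n) * (1 - A n)⁻¹ := by
          simp only [Matrix.mul_assoc]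
      _ = (1 - A n)ᵀ⁻¹ * J * ((1 - A n) * (1 + A n)) * (1 - A n)⁻¹ := by
          rw [e1]; simp only [Matrix.mul_assoc]
      _ = (1 - A n)ᵀ⁻¹ * (J * (1 + A n)) * ((1 - A n) * (1 - A n)⁻¹) := by
          rw [e3]; simp only [Matrix.mul_assoc]
      _ = (1 - A n)ᵀ⁻¹ * ((1 - A n)ᵀ * J) := by
          rw [Matrix.mul_nonsing_inv _ hu, Matrix.mul_one, e2]
      _ = J := by
          rw [← Matrix.mul_assoc, Matrix.nonsing_inv_mul _ hut, Matrix.one_mul]
  have hex : ∀ n, ∃ s : G, (ρ s)ᵀ * J * ρ s = J ∧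
      ((1 - A n).det ≠ 0 → (∀ i j, ‖(g n - 1) i j‖ < ε) → ρ s = g n) := by
    intro n
    by_cases h1 : (1 - A n).det ≠ 0 ∧ ∀ i j, ‖(g n - 1) i j‖ < ε
    · obtain ⟨s, hs⟩ := hO (g n) (hgiso n h1.1) h1.2
      exact ⟨s, by rw [hs]; exact hgiso n h1.1, fun _ _ => hs⟩
    · refine ⟨1, by simp, fun h2 h3 => absurd ⟨h2, h3⟩ h1⟩
  choose σ hσ1 hσ2 using hex
  refine ⟨σ, hσ1, ?_⟩
  have hlim : Tendsto (fun n => X * (1 - A n)⁻¹) atTop (𝓝 X) := by
    have h1 := hinv.const_mul X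
    rwa [mul_one] at h1
  have hsmall : ∀ᶠ n in atTop, ∀ i j, ‖(g n - 1) i j‖ < ε := by
    rw [eventually_all]
    intro i
    rw [eventually_all]
    intro j
    have h1 : Tendsto (fun n => ‖(g n - 1) i j‖) atTop (𝓝 0) := by
      have h2 := (((continuous_apply j).comp (continuous_apply i)).tendsto
        (0 : Matrix (Fin N) (Fin N) ℚ_[ℓ])).comp hg1
      have h3 := h2.norm
      simpa using h3
    exact h1.eventually_lt_const hε
  refine hlim.congr' ?_
  filter_upwards [hdet0, hsmall] with n h1 h2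
  rw [hσ2 n h1 h2, hg]
  have hu : IsUnit (1 - A n).det := isUnit_iff_ne_zero.2 h1
  have e1 : (1 + A n) * (1 - A n)⁻¹ - 1 = (2 : ℚ_[ℓ]) • A n * (1 - A n)⁻¹ := by
    have e2 : 1 + A n = (1 - A n) + (2 : ℚ_[ℓ]) • A n := by
      rw [two_smul]; abel
    rw [e2, Matrix.add_mul, Matrix.mul_nonsing_inv _ hu, add_sub_cancel_left]
  rw [e1, hXY, hA, ← Matrix.smul_mul, smul_smul, smul_smul]
  congr 2
  have h5 := pow_ne_zero n hℓ0
  field_simp

/-- invariance under the tangent vectors -/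
theorem inv_tanS [TopologicalSpace G] [IsTopologicalGroup G] [CompactSpace G]
    {ρ : G →* Matrix (Fin N) (Fin N) ℚ_[ℓ]} {J Y : Matrix (Fin N) (Fin N) ℚ_[ℓ]} {σ : ℕ → G}
    (hiso : ∀ n, (ρ (σ n))ᵀ * J * ρ (σ n) = J)
    (hσ : Tendsto (fun n : ℕ => ((ℓ : ℚ_[ℓ]) ^ n)⁻¹ • (ρ (σ n) - 1)) atTop (𝓝 Y)) {k : ℕ}
    (φ : MultilinearMap ℚ_[ℓ] (fun _ : Fin k => Fin N → ℚ_[ℓ]) ℚ_[ℓ]) (U : Subgroup G)
    (hU : IsOpen (U : Set G))
    (hφ : ∀ σ ∈ U, (ρ σ)ᵀ * J * ρ σ = J → ∀ v, φ (fun j => ρ σ *ᵥ v j) = φ v)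
    (v : Fin k → Fin N → ℚ_[ℓ]) : ∑ j, φ (Function.update v j (Y *ᵥ v j)) = 0 := by
  have hfin : Finite (G ⧸ U) := Subgroup.quotient_finite_of_isOpen U hU
  have hidx : U.index ≠ 0 := Subgroup.index_ne_zero_of_finite
  obtain ⟨e, he0, he⟩ : ∃ e : ℕ, e ≠ 0 ∧ ∀ g : G, g ^ e ∈ U :=
    ⟨U.index.factorial, Nat.factorial_ne_zero _, fun g =>
      U.pow_mem_of_index_ne_zero_of_dvd hidx g fun m h1 h2 => Nat.dvd_factorial h1 h2⟩
  obtain ⟨k1, k2⟩ := tan_pow hσ e
  let Φ : ContinuousMultilinearMap ℚ_[ℓ] (fun _ : Fin k => Fin N → ℚ_[ℓ]) ℚ_[ℓ] :=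
    ⟨φ, cont_form φ⟩
  have hd : HasFDerivWithinAt Φ (Φ.linearDeriv v) Set.univ v := (Φ.hasFDerivAt v).hasFDerivWithinAt
  have hmv : ∀ w : Fin N → ℚ_[ℓ],
      Continuous fun A : Matrix (Fin N) (Fin N) ℚ_[ℓ] => A *ᵥ w := fun w =>
    Continuous.matrix_mulVec continuous_id continuous_const
  have hl := hd.lim (l := atTop) (c := fun n : ℕ => ((ℓ : ℚ_[ℓ]) ^ n)⁻¹)
    (d := fun n j => (ρ (σ n ^ e) - 1) *ᵥ v j) (v := fun j => ((e : ℚ_[ℓ]) • Y) *ᵥ v j)
    (by
      rw [tendsto_pi_nhds]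
      intro j
      have := ((hmv (v j)).tendsto 0).comp k2
      rwa [zero_mulVec] at this)
    (Eventually.of_forall fun _ => Set.mem_univ _)
    (by
      rw [tendsto_pi_nhds]
      intro j
      have := ((hmv (v j)).tendsto _).comp k1
      refine this.congr fun n => ?_
      show (((ℓ : ℚ_[ℓ]) ^ n)⁻¹ • (ρ (σ n ^ e) - 1)) *ᵥ v j = ((ℓ : ℚ_[ℓ]) ^ n)⁻¹ • _
      rw [smul_mulVec])
  have hz : (fun n : ℕ => ((ℓ : ℚ_[ℓ]) ^ n)⁻¹ •
      (Φ (v + fun j => (ρ (σ n ^ e) - 1) *ᵥ v j) - Φ v)) = fun _ => 0 := by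
    funext n
    have h1 : (v + fun j => (ρ (σ n ^ e) - 1) *ᵥ v j) = fun j => ρ (σ n ^ e) *ᵥ v j := by
      funext j
      rw [Pi.add_apply, sub_mulVec, one_mulVec]
      abel
    have h2 : Φ (fun j => ρ (σ n ^ e) *ᵥ v j) = Φ v :=
      hφ _ (he (σ n)) (by rw [map_pow]; exact iso_pow (hiso n) e) v
    rw [h1, h2, sub_self, smul_zero]
  rw [hz] at hl
  have h0 := tendsto_nhds_unique hl tendsto_const_nhds
  rw [ContinuousMultilinearMap.linearDeriv_apply] at h0
  have h1 : ∑ j, φ (Function.update v j (((e : ℚ_[ℓ]) • Y) *ᵥ v j)) =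
      (e : ℚ_[ℓ]) * ∑ j, φ (Function.update v j (Y *ᵥ v j)) := by
    rw [Finset.mul_sum]
    refine Finset.sum_congr rfl fun j _ => ?_
    rw [smul_mulVec, MultilinearMap.map_update_smul, smul_eq_mul]
  have h2 : (e : ℚ_[ℓ]) * ∑ j, φ (Function.update v j (Y *ᵥ v j)) = 0 := by
    rw [← h1]
    exact h0
  exact (mul_eq_zero.1 h2).resolve_left (by exact_mod_cast he0)

end tan

theorem t : S_TENSS := by
  intro ℓ _ N G _ _ _ _ ρ hρ J hJ hdet hO k φ U hU hφ
  refine fftS J hJ hdet φ fun a b v => ?_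
  obtain ⟨σ, h1, h2⟩ := cayley (sw2_sp hJ a b) hO
  exact inv_tanS h1 h2 φ U hU hφ v

end Pool.Agent.Y100.ZS
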